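import Pool.Agent.H248Z.AffTop

namespace Pool.Agent.Results.MP_3166b2_lc.ANoBorelCriterion

open MeasureTheory Filter Topology Set TopologicalSpace
open Pool.Agent.H248Z.Aff Pool.Agent.Helper212.Sq

/-- The Hilbert cube, with the product topology. -/
abbrev Q : Type := ℕ → unitInterval

/-- The compact set Gr is the graph of the homeomorphism T of the compact set K. -/
def Codes (Gr : NonemptyCompacts (Q × Q)) (K : Set Q) (T : K ≃ₜ K) : Prop :=
  IsCompact K ∧ (Gr : Set (Q × Q)) = range fun x : K => ((x : Q), (T x : Q))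

/-- Gr codes a minimal homeomorphism: every two-sided orbit is dense. -/
def IsMinimalCode (Gr : NonemptyCompacts (Q × Q)) : Prop :=
  ∃ (K : Set Q) (T : K ≃ₜ K), Codes Gr K T ∧ ∀ x : K, Dense (range fun n : ℤ => (T ^ n) x)

/-- Gr codes a topologically distal homeomorphism, for the metric d. -/
def IsDistalCode (d : MetricSpace Q) (Gr : NonemptyCompacts (Q × Q)) : Prop :=
  ∃ (K : Set Q) (T : K ≃ₜ K), Codes Gr K T ∧
    ∀ x y : K, x ≠ y → 0 < ⨅ n : ℤ, d.dist ((T ^ n) x : Q) ((T ^ n) y : Q)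

/-- The coded systems are topologically conjugate. -/
def Conjugate (Gr Gr' : NonemptyCompacts (Q × Q)) : Prop :=
  ∃ (K : Set Q) (T : K ≃ₜ K) (L : Set Q) (S : L ≃ₜ L), Codes Gr K T ∧ Codes Gr' L S ∧
    ∃ h : K ≃ₜ L, ∀ x, h (T x) = S (h x)

/-- The space of minimal codes, a subspace of the Vietoris hyperspace. -/
abbrev X : Type := {Gr : NonemptyCompacts (Q × Q) // IsMinimalCode Gr}

theorem exists_j : ∃ j : K Ix → Q, IsEmbedding j := by
  letI := TopologicalSpace.metrizableSpaceMetric (K Ix)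
  exact Metric.PiNatEmbed.exists_embedding_to_hilbert_cube

variable {j : K Ix → Q} (hj : IsEmbedding j)

/-- the graph -/
noncomputable def gr (κ : ℤ) (τ : Tr) : NonemptyCompacts (Q × Q) :=
  (⊤ : NonemptyCompacts (K Ix)).map (fun x => (j x, j (TT (sig κ τ) io x)))
    (hj.continuous.prodMk (hj.continuous.comp continuous_TT))

/-- the transported map -/
noncomputable def TJ (κ : ℤ) (τ : Tr) : range j ≃ₜ range j :=
  (hj.toHomeomorph.symm.trans (TH (good κ τ))).trans hj.toHomeomorph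

theorem TJ_apply (κ : ℤ) (τ : Tr) (x : K Ix) :
    TJ hj κ τ (hj.toHomeomorph x) = hj.toHomeomorph (TH (good κ τ) x) := by
  simp [TJ]

theorem gr_coe (κ : ℤ) (τ : Tr) :
    (gr hj κ τ : Set (Q × Q)) = range fun x => (j x, j (TT (sig κ τ) io x)) := by
  simp [gr]

theorem codes_gr (κ : ℤ) (τ : Tr) : Codes (gr hj κ τ) (range j) (TJ hj κ τ) := by
  refine ⟨isCompact_range hj.continuous, ?_⟩
  rw [gr_coe, ← hj.toHomeomorph.surjective.range_comp]
  congr 1
  funext x
  simp only [Function.comp_apply, TJ_apply]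
  rfl

theorem min_gr (κ : ℤ) (τ : Tr) : IsMinimalCode (gr hj κ τ) := by
  refine ⟨_, _, codes_gr hj κ τ, fun y => ?_⟩
  obtain ⟨x, rfl⟩ := hj.toHomeomorph.surjective y
  have h1 := hj.toHomeomorph.surjective.denseRange.dense_image hj.toHomeomorph.continuous
    (dense_orbit (good κ τ) x)
  refine h1.mono ?_
  rintro _ ⟨_, ⟨n, rfl⟩, rfl⟩
  refine ⟨n, ?_⟩
  simp only
  rw [zpow_semiconj _ _ _ (TJ_apply hj κ τ), pow_apply_iter]
  rfl

theorem distal_gr (d : MetricSpace Q)
    (hd : d.toPseudoMetricSpace.toUniformSpace.toTopologicalSpace = Pi.topologicalSpace)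
    (κ : ℤ) (τ : Tr) : IsDistalCode d (gr hj κ τ) := by
  refine ⟨_, _, codes_gr hj κ τ, fun x' y' hne => ?_⟩
  obtain ⟨x, rfl⟩ := hj.toHomeomorph.surjective x'
  obtain ⟨y, rfl⟩ := hj.toHomeomorph.surjective y'
  obtain ⟨R, hR, hR1, hR2⟩ := distal_rel (good κ τ) x y fun h => hne (by rw [h])
  have hc : Continuous fun p : Q × Q => d.dist p.1 p.2 := by
    have := @continuous_dist Q d.toPseudoMetricSpace
    rw [hd] at this
    exact this
  obtain ⟨δ, hδ, hδ'⟩ := hR.isCompact.exists_forall_le' (a := 0)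
    (f := fun p : K Ix × K Ix => d.dist (j p.1) (j p.2))
    (hc.comp ((hj.continuous.comp continuous_fst).prodMk
      (hj.continuous.comp continuous_snd))).continuousOn
    (fun p hp => (@dist_pos Q d _ _).mpr fun h => hR1 p hp (hj.injective h))
  refine hδ.trans_le (le_ciInf fun n => ?_)
  rw [zpow_semiconj _ _ _ (TJ_apply hj κ τ), zpow_semiconj _ _ _ (TJ_apply hj κ τ)]
  exact hδ' _ (hR2 n)

theorem codes_uniq (κ : ℤ) (τ : Tr) (L : Set Q) (T : L ≃ₜ L) (h : Codes (gr hj κ τ) L T) :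
    ∃ e : K Ix ≃ₜ L, ∀ x, T (e x) = e (TT (sig κ τ) io x) := by
  have h1 := h.2
  rw [gr_coe] at h1
  have h2 : range j = L := by
    have := congrArg (fun s => Prod.fst '' s) h1
    simpa only [← range_comp, Function.comp_def, Subtype.range_coe_subtype, ofPred_mem_eq]
      using this
  subst h2
  refine ⟨hj.toHomeomorph, fun x => Subtype.ext ?_⟩
  obtain ⟨y, hy⟩ : (j x, j (TT (sig κ τ) io x)) ∈
      range fun x : range j => ((x : Q), (T x : Q)) := h1 ▸ ⟨x, rfl⟩
  have h3 : y = hj.toHomeomorph x := Subtype.ext (Prod.ext_iff.mp hy).1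
  rw [← h3]
  exact (Prod.ext_iff.mp hy).2

theorem continuous_gr (κ : ℤ) : Continuous (gr hj κ) := by
  refine Continuous.nonemptyCompacts_map' (f := fun _ : Tr => (⊤ : NonemptyCompacts (K Ix)))
    (g := fun τ x => (j x, j (TT (sig κ τ) io x))) continuous_const ?_
  exact (hj.continuous.comp continuous_snd).prodMk (hj.continuous.comp (continuous_TT_tree κ))

/-- No Borel set decides topological conjugacy of minimal distal homeomorphisms. -/
theorem result (d : MetricSpace Q)
    (hd : d.toPseudoMetricSpace.toUniformSpace.toTopologicalSpace = Pi.topologicalSpace) :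
    ¬ ∃ B : Set (X × X), @MeasurableSet (X × X) (borel (X × X)) B ∧
      ∀ p q : X, IsDistalCode d p.1 → IsDistalCode d q.1 → ((p, q) ∈ B ↔ Conjugate p.1 q.1) := by
  rintro ⟨B, hB, hiff⟩
  obtain ⟨j, hj⟩ := exists_j
  obtain ⟨D, hD, hDm⟩ := exists_analytic_not_measurable
  obtain ⟨θ, hθ, h1, h2⟩ := exists_tree D hD
  let r : (ℕ → ℕ) → X × X := fun z =>
    (⟨gr hj 1 (θ z), min_gr hj 1 (θ z)⟩, ⟨gr hj 0 (θ z), min_gr hj 0 (θ z)⟩)
  have hr : Continuous r := (((continuous_gr hj 1).comp hθ).subtype_mk _).prodMk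
    (((continuous_gr hj 0).comp hθ).subtype_mk _)
  letI : MeasurableSpace (X × X) := borel _
  haveI : BorelSpace (X × X) := ⟨rfl⟩
  apply hDm
  convert hr.measurable hB
  ext z
  rw [mem_preimage, hiff _ _ (distal_gr hj d hd 1 (θ z)) (distal_gr hj d hd 0 (θ z))]
  constructor
  · intro hz
    obtain ⟨w, hw⟩ := h1 z hz
    obtain ⟨φ, -, hφ⟩ := conj_of_branch (θ z) w hw
    refine ⟨_, _, _, _, codes_gr hj 1 (θ z), codes_gr hj 0 (θ z),
      (hj.toHomeomorph.symm.trans φ).trans hj.toHomeomorph, fun y => ?_⟩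
    obtain ⟨x, rfl⟩ := hj.toHomeomorph.surjective y
    rw [TJ_apply]
    simp only [Homeomorph.trans_apply, Homeomorph.symm_apply_apply, TJ_apply, TH_apply, hφ]
  · rintro ⟨L, T, L', S, c1, c2, h, hh⟩
    obtain ⟨e1, he1⟩ := codes_uniq hj 1 (θ z) L T c1
    obtain ⟨e2, he2⟩ := codes_uniq hj 0 (θ z) L' S c2
    have hc : ∀ x, ((e1.trans h).trans e2.symm) (TT (sig 1 (θ z)) io x)
        = TT (sig 0 (θ z)) io (((e1.trans h).trans e2.symm) x) := by
      intro x
      simp only [Homeomorph.trans_apply]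
      rw [Homeomorph.symm_apply_eq, ← he2, e2.apply_symm_apply, ← he1, hh]
    exact h2 z (path_of_conj (θ z) _ (mp_of_semiconj (good 1 _) (good 0 _) _
      ((e1.trans h).trans e2.symm).continuous hc) (Eventually.of_forall hc))

end Pool.Agent.Results.MP_3166b2_lc.ANoBorelCriterion
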